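import Pool.Agent.H29.TD2

namespace Pool.Agent.Results.MP_e52bc6_co.Constant

open Pool.Agent.H29.TD Filter

/-- total domination numbers of the graphs of order `n` in the class -/
def vals (n : ℕ) : Set ℕ :=
  {k | ∃ (V : Type) (_ : Fintype V) (G : SimpleGraph V), Fintype.card V = n ∧ InC G ∧ k = gamT G}

/-- `g n`, the largest total domination number of a graph of order `n` in the class -/
noncomputable def g (n : ℕ) : ℕ := sSup (vals n)

lemma vals_le {n k : ℕ} (h5 : 5 ≤ n) (h : k ∈ vals n) : 18 * k ≤ 7 * n + 6 := by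
  classical
  obtain ⟨V, _, G, rfl, hG, rfl⟩ := h
  exact upper hG h5

lemma g_le {n : ℕ} (h5 : 5 ≤ n) : 18 * g n ≤ 7 * n + 6 := by
  have : g n ≤ (7 * n + 6) / 18 := csSup_le' fun k hk => by have := vals_le h5 hk; omega
  omega

lemma mem (k : ℕ) : gamT (GG k) ∈ vals (36 * (k + 1)) :=
  ⟨_, inferInstance, GG k, by simp [ZMod.card, mul_comm],
    ⟨conn k, (str k).cubic, (str k).claw, (str k).diamond⟩, rfl⟩

lemma g_eq (k : ℕ) : g (36 * (k + 1)) = 14 * (k + 1) := by
  have h1 := g_le (n := 36 * (k + 1)) (by omega)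
  have h2 : gamT (GG k) ≤ g (36 * (k + 1)) :=
    le_csSup ⟨7 * (36 * (k + 1)) + 6, fun m hm => by have := vals_le (by omega) hm; omega⟩ (mem k)
  have := lower k
  omega

theorem result : (∀ n, 5 ≤ n → 18 * g n ≤ 7 * n + 6) ∧
    (∀ k, 1 ≤ k → (vals (36 * k)).Nonempty ∧ g (36 * k) = 14 * k) ∧
    limsup (fun n : ℕ => (g n : ℝ) / n) (atTop ⊓ principal {n | (vals n).Nonempty}) = 7 / 18 := by
  refine ⟨fun n => g_le, fun k hk => ?_, ?_⟩
  · obtain ⟨k, rfl⟩ : ∃ j, k = j + 1 := ⟨k - 1, by omega⟩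
    exact ⟨⟨_, mem k⟩, g_eq k⟩
  · have hfr : ∃ᶠ n : ℕ in atTop ⊓ principal {n | (vals n).Nonempty}, (7 / 18 : ℝ) ≤ (g n : ℝ) / n := by
      rw [frequently_inf_principal, frequently_atTop]
      intro N
      refine ⟨36 * (N + 1), by omega, ⟨_, mem N⟩, ?_⟩
      rw [g_eq, le_div_iff₀ (by positivity)]
      push_cast
      linarith
    have : (atTop ⊓ principal {n | (vals n).Nonempty}).NeBot := by
      by_contra h
      rw [not_neBot] at h
      rw [h] at hfr
      exact frequently_bot hfr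
    have hup : ∀ e : ℝ, 0 < e → ∀ᶠ n : ℕ in atTop ⊓ principal {n | (vals n).Nonempty},
        (g n : ℝ) / n ≤ 7 / 18 + e := by
      intro e he
      apply Eventually.filter_mono inf_le_left
      obtain ⟨N, hN⟩ := exists_nat_gt (1 / e)
      filter_upwards [eventually_ge_atTop (N + 5)] with n hn
      have h1 : (18 * g n : ℝ) ≤ 7 * n + 6 := by exact_mod_cast g_le (n := n) (by omega)
      have h2 : (N + 5 : ℝ) ≤ n := by exact_mod_cast hn
      have h3 : (0 : ℝ) ≤ N := by positivity
      rw [div_lt_iff₀ he] at hN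
      rw [div_le_iff₀ (by linarith)]
      nlinarith
    apply le_antisymm
    · apply le_of_forall_pos_le_add
      intro e he
      exact limsup_le_of_le (isCoboundedUnder_le_of_le _ (x := 0) fun n => by positivity) (hup e he)
    · exact le_limsup_of_frequently_le hfr ⟨7 / 18 + 1, hup 1 one_pos⟩

end Pool.Agent.Results.MP_e52bc6_co.Constant
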